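import Pool.Agent.Helper19.TGX.Goals
import Pool.Agent.Helper35.TG.RGEN
import Pool.Agent.Helper45.TG.IPN
import Pool.Agent.Helper66.TG.EMB
import Pool.Agent.Helper17.TG.DEC

/-!
# Project TGX (MP_a41896_nt), packet GFO: the formula of an odd natural map
-/

set_option autoImplicit false

open Polynomial

namespace Pool.Agent.Helper91.TGX.GFO

open WeierstrassCurve
open Pool.Agent.Helper29.BL Pool.Agent.Helper42.SG
open Pool.Agent.Helper60.T3 (WL IP)
open Pool.Agent.Helper92.TG (mp)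
open Pool.Agent.Helper60.TGX (Val)
open Pool.Agent.Helper19.TGX
open Pool.Agent.Helper35.TG.RGEN (ps_sq xc_neg ps_neg xc_mp ps_mp bp_aeval bp_ne exists_pt alg_x)

noncomputable section

theorem bp_eq {k : Type} [Field k] (W : Affine k) :
    Pool.Agent.Helper19.TGX.bp W = Pool.Agent.Helper35.TG.RGEN.bp W := by
  unfold Pool.Agent.Helper19.TGX.bp Pool.Agent.Helper35.TG.RGEN.bp
  rw [Polynomial.C_mul]
  have h4 : (C 4 : k[X]) = 4 := rfl
  have h2 : (C 2 : k[X]) = 2 := rfl
  rw [h4, h2]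

theorem hf_aeval {k : Type} [Field k] (W : Affine k) {F : Type} [Field F] [Algebra k F]
    (x z : F) (A B : k[X]) (h : z * aeval x B = aeval x A) :
    aeval x (hf W A B) = Bf (WL F W) z * aeval x B ^ 3 := by
  unfold hf Bf
  have e2 : (WL F W).b₂ = algebraMap k F W.b₂ := WeierstrassCurve.map_b₂ _ _
  have e4 : (WL F W).b₄ = algebraMap k F W.b₄ := WeierstrassCurve.map_b₄ _ _
  have e6 : (WL F W).b₆ = algebraMap k F W.b₆ := WeierstrassCurve.map_b₆ _ _
  rw [e2, e4, e6]
  simp only [map_add, map_mul, map_pow, aeval_C, map_ofNat]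
  rw [← h]
  ring

theorem t : Pool.Agent.Helper19.TGX.GFO := by
  classical
  intro k _ _ W W' hW hW' g hodd
  obtain ⟨P₀, hP₀, hx₀⟩ := exists_pt (W := W)
    (algebraMap (RatFunc k) (AlgebraicClosure (RatFunc k)) RatFunc.X)
  have hT : Transcendental k (xc P₀) := by
    rw [hx₀]
    exact (transcendental_algebraMap_iff
      (algebraMap (RatFunc k) (AlgebraicClosure (RatFunc k))).injective).mpr
      RatFunc.transcendental_X
  have hal : ∀ z : AlgebraicClosure (RatFunc k),
      IsAlgebraic (IntermediateField.adjoin k ({xc P₀} : Set (AlgebraicClosure (RatFunc k)))) z := by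
    rw [hx₀]
    exact alg_x k
  have hψ2 : ps P₀ ^ 2 = aeval (xc P₀) (Pool.Agent.Helper35.TG.RGEN.bp W) := by
    rw [bp_aeval, ps_sq P₀ hP₀]
  have hψ : ps P₀ ≠ 0 := by
    intro h
    rw [h] at hψ2
    exact hT ⟨Pool.Agent.Helper35.TG.RGEN.bp W, bp_ne, by rw [← hψ2]; ring⟩
  obtain ⟨σ, hσ⟩ := Pool.Agent.Helper66.TG.EMB.t k W hW _ _ P₀ (-P₀) hT (by rwa [xc_neg]) hal
  have s1 : σ (xc P₀) = xc P₀ := by rw [← xc_mp, hσ, xc_neg]
  have s2 : σ (ps P₀) = -ps P₀ := by rw [← ps_mp, hσ, ps_neg]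
  have s3 : mp σ (g.f _ P₀) = -g.f _ P₀ := by
    rw [← hodd _ P₀ hT, ← hσ]
    exact (g.nat _ _ σ P₀ hT).symm
  have s4 : σ (xc (g.f _ P₀)) = xc (g.f _ P₀) := by rw [← xc_mp, s3, xc_neg]
  have s5 : σ (ps (g.f _ P₀)) = -ps (g.f _ P₀) := by rw [← ps_mp, s3, ps_neg]
  have gen : ∀ (F : Type) [Field F] [DecidableEq F] [Algebra k F] (P : (WL F W).Point),
      Transcendental k (xc P) → ∃ (i : F →ₐ[k] AlgebraicClosure F)
        (j : AlgebraicClosure (RatFunc k) →ₐ[k] AlgebraicClosure F), mp i P = mp j P₀ := by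
    intro F _ _ _ P hP
    let i : F →ₐ[k] AlgebraicClosure F := IsScalarTower.toAlgHom k F (AlgebraicClosure F)
    have h1 : Transcendental k (xc (mp i P)) := by
      rw [xc_mp]
      exact (transcendental_algebraMap_iff (R := k) (S := F) (A := AlgebraicClosure F)
        (algebraMap F (AlgebraicClosure F)).injective).mpr hP
    obtain ⟨j, hj⟩ := Pool.Agent.Helper66.TG.EMB.t k W hW _ _ P₀ (mp i P) hT h1 hal
    exact ⟨i, j, hj.symm⟩
  by_cases h0 : g.f _ P₀ = 0
  · left
    intro F _ _ _ P hP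
    obtain ⟨i, j, hij⟩ := gen F P hP
    have e1 : g.f _ (mp i P) = mp i (g.f F P) := g.nat _ _ i P hP
    have e2 : g.f _ (mp j P₀) = mp j (g.f _ P₀) := g.nat _ _ j P₀ hT
    have h1 : mp i (g.f F P) = mp j (g.f _ P₀) := by rw [← e1, hij, e2]
    rw [h0] at h1
    exact Affine.Point.map_injective i (h1.trans rfl)
  · right
    have hG : IP ((IntermediateField.adjoin k ({xc P₀, ps P₀} :
        Set (AlgebraicClosure (RatFunc k)))) : Set (AlgebraicClosure (RatFunc k))) P₀ :=
      Or.inr ⟨IntermediateField.subset_adjoin _ _ (Set.mem_insert _ _),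
        IntermediateField.subset_adjoin _ _ (Set.mem_insert_of_mem _ rfl)⟩
    have hI : IP ((IntermediateField.adjoin k ({xc P₀, ps P₀} :
        Set (AlgebraicClosure (RatFunc k)))) : Set (AlgebraicClosure (RatFunc k)))
        (g.f _ P₀) := by
      obtain ⟨Q, hQ⟩ := Pool.Agent.Helper45.TG.IPN.exists_map _ hG
      have hQ' : mp (IntermediateField.adjoin k ({xc P₀, ps P₀} :
        Set (AlgebraicClosure (RatFunc k)))).val Q = P₀ := hQ
      have hQT : Transcendental k (xc Q) := by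
        intro hal'
        apply hT
        rw [← hQ', xc_mp]
        exact hal'.algHom _
      have h1 := g.nat _ _ (IntermediateField.adjoin k ({xc P₀, ps P₀} :
        Set (AlgebraicClosure (RatFunc k)))).val Q hQT
      rw [hQ'] at h1
      rw [h1]
      exact Pool.Agent.Helper45.TG.IPN.ip_map _ _
    rcases hI with h | ⟨g1, g2⟩
    · exact absurd h h0
    obtain ⟨d1, -⟩ := Pool.Agent.Helper17.TG.DEC.t k _ (xc P₀) (ps P₀) (xc (g.f _ P₀))
      (Pool.Agent.Helper35.TG.RGEN.bp W) σ hT hψ hψ2 s1 s2 g1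
    obtain ⟨-, d2⟩ := Pool.Agent.Helper17.TG.DEC.t k _ (xc P₀) (ps P₀) (ps (g.f _ P₀))
      (Pool.Agent.Helper35.TG.RGEN.bp W) σ hT hψ hψ2 s1 s2 g2
    obtain ⟨A, B, hAB, hB, d3⟩ := d1 s4
    obtain ⟨C', E', hE0, d4⟩ := d2 s5
    refine ⟨A, B, C', E', hAB, hB, hE0, ?_, ?_⟩
    · intro F _ _ _ P hP
      obtain ⟨i, j, hij⟩ := gen F P hP
      have e1 : g.f _ (mp i P) = mp i (g.f F P) := g.nat _ _ i P hP
      have e2 : g.f _ (mp j P₀) = mp j (g.f _ P₀) := g.nat _ _ j P₀ hT
      have h1 : mp i (g.f F P) = mp j (g.f _ P₀) := by rw [← e1, hij, e2]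
      have x1 : i (xc (g.f F P)) = j (xc (g.f _ P₀)) := by rw [← xc_mp, ← xc_mp, h1]
      have x2 : i (ps (g.f F P)) = j (ps (g.f _ P₀)) := by rw [← ps_mp, ← ps_mp, h1]
      have x3 : i (xc P) = j (xc P₀) := by rw [← xc_mp, ← xc_mp, hij]
      have x4 : i (ps P) = j (ps P₀) := by rw [← ps_mp, ← ps_mp, hij]
      have inj : Function.Injective i := (i : F →+* AlgebraicClosure F).injective
      refine ⟨fun h => h0 ?_, ?_, ?_⟩
      · rw [h] at h1
        exact Affine.Point.map_injective j (h1.symm.trans rfl)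
      · apply inj
        rw [map_mul, ← Polynomial.aeval_algHom_apply, ← Polynomial.aeval_algHom_apply, x1, x3,
          Polynomial.aeval_algHom_apply, Polynomial.aeval_algHom_apply, ← map_mul, d3]
      · apply inj
        rw [map_mul, map_mul, ← Polynomial.aeval_algHom_apply, ← Polynomial.aeval_algHom_apply,
          x2, x3, x4, Polynomial.aeval_algHom_apply, Polynomial.aeval_algHom_apply, ← map_mul,
          ← map_mul, d4]
    · rw [bp_eq]
      have h1 := hf_aeval W' (xc P₀) (xc (g.f _ P₀)) A B d3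
      have h2 := ps_sq (g.f _ P₀) h0
      rw [← sub_eq_zero]
      apply (transcendental_iff.mp hT)
      rw [map_sub, map_mul, map_mul, map_mul, map_pow, map_pow, map_pow, h1, ← h2, ← hψ2]
      have h3 : (ps (g.f _ P₀) * aeval (xc P₀) E') ^ 2 = (aeval (xc P₀) C' * ps P₀) ^ 2 := by
        rw [d4]
      linear_combination (aeval (xc P₀) B ^ 3) * h3

end

end Pool.Agent.Helper91.TGX.GFO
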